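import Pool.Agent.H8.AV3.Stmts6
import Mathlib.FieldTheory.Finite.Basic

/-!
# Row NDP of board av3c: forms whose discriminant is divisible exactly once by `P` have a good point
-/

set_option autoImplicit false

namespace Pool.Agent.H41.AV3C

open Polynomial Matrix Pool.AVR Pool.AV3

theorem Jc_map1 {R S : Type} [CommRing R] [CommRing S] (φ : R →+* S) (τ : R) (c : Fin 10 → R) :
    Jc (φ τ) (fun i => φ (c i)) =
      (φ (Jc τ c).1, φ (Jc τ c).2.1, φ (Jc τ c).2.2) := by
  simp only [Jc, jb4, jb6, map_add, map_sub, map_mul, map_pow, map_neg, map_ofNat]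

theorem dsc_Jc_map {R S : Type} [CommRing R] [CommRing S] (φ : R →+* S) (τ : R)
    (c : Fin 10 → R) : dsc (Jc (φ τ) fun i => φ (c i)) = φ (dsc (Jc τ c)) := by
  rw [Jc_map1]
  simp only [dsc, disc, map_add, map_sub, map_mul, map_pow, map_ofNat]

/-- Elements fixed by the Frobenius map of a finite subfield. -/
theorem fixed_mem {k K : Type} [Field k] [Fintype k] [Field K] (ι : k →+* K) (x : K)
    (hx : x ^ Fintype.card k = x) : ∃ a, ι a = x := by
  classical
  by_contra h
  push Not at h
  have hne : (X ^ Fintype.card k - X : K[X]) ≠ 0 :=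
    FiniteField.X_pow_card_sub_X_ne_zero K Fintype.one_lt_card
  have h1 : x ∉ Finset.univ.image ι := by
    intro h2
    obtain ⟨a, -, ha⟩ := Finset.mem_image.1 h2
    exact h a ha
  have h2 : (insert x (Finset.univ.image ι)).card ≤ (X ^ Fintype.card k - X : K[X]).natDegree := by
    apply Polynomial.card_le_degree_of_subset_roots
    intro y hy
    rw [mem_roots hne, IsRoot.def, eval_sub, eval_pow, eval_X, sub_eq_zero]
    rcases Finset.mem_insert.1 hy with hy | hy
    · rw [hy, hx]
    · obtain ⟨a, -, ha⟩ := Finset.mem_image.1 hy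
      rw [← ha, ← map_pow, FiniteField.pow_card]
  rw [FiniteField.X_pow_card_sub_X_natDegree_eq K Fintype.one_lt_card,
    Finset.card_insert_of_notMem h1, Finset.card_image_of_injective _ ι.injective,
    Finset.card_univ] at h2
  omega

/-- The map `p ↦ p(a) + p'(a) ε`. -/
noncomputable def phd {F K : Type} [Field F] [Field K] (ev : F[X] →+* K) :
    F[X] →+* DualNumber K where
  toFun p := (ev p, ev (derivative p))
  map_one' := by
    rw [derivative_one, map_one, map_zero]
    rfl
  map_mul' p q := by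
    rw [derivative_mul, map_mul, map_add, map_mul, map_mul]
    refine TrivSqZeroExt.ext ?_ ?_
    · rfl
    · show ev (derivative p) * ev q + ev p * ev (derivative q) =
        ev p • ev (derivative q) + MulOpposite.op (ev q) • ev (derivative p)
      rw [smul_eq_mul, MulOpposite.smul_eq_mul_unop, MulOpposite.unop_op]
      ring
  map_zero' := by
    rw [derivative_zero, map_zero]
    rfl
  map_add' p q := by
    rw [derivative_add, map_add, map_add]
    rfl

theorem taylor' {R : Type} [CommRing R] (c : Fin 10 → R) (s t : R) (v w : Fin 3 → R) :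
    tder c (s • v + t • w) v = s ^ 2 * (3 * tev c v) + 2 * s * t * tder c v w +
      t ^ 2 * tder c w v := by
  simp only [tev, tder, Pi.add_apply, Pi.smul_apply, smul_eq_mul]
  ring

theorem tder_lin {R : Type} [CommRing R] (c : Fin 10 → R) (s t : R) (x v w : Fin 3 → R) :
    tder c x (s • v + t • w) = s * tder c x v + t * tder c x w := by
  rw [tder_add_right, tder_smul_right, tder_smul_right]

/-- A quadratic form vanishing at all points of a field of characteristic not two vanishes after
base extension. -/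
theorem quad_zero {k K : Type} [Field k] [Field K] (ι : k →+* K) (c : Fin 10 → k)
    (v : Fin 3 → k) (h : ∀ u : Fin 3 → k, tder c u v = 0) (u : Fin 3 → K) :
    tder (fun i => ι (c i)) u (fun i => ι (v i)) = 0 := by
  have h0 := h ![1, 0, 0]
  have h1 := h ![0, 1, 0]
  have h2 := h ![0, 0, 1]
  have h3 := h ![1, 1, 0]
  have h4 := h ![1, 0, 1]
  have h5 := h ![0, 1, 1]
  simp only [tder, Matrix.cons_val] at h0 h1 h2 h3 h4 h5
  have g0 := congrArg ι h0
  have g1 := congrArg ι h1
  have g2 := congrArg ι h2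
  have g3 := congrArg ι h3
  have g4 := congrArg ι h4
  have g5 := congrArg ι h5
  simp only [map_add, map_mul, map_pow, map_ofNat, map_zero, map_one] at g0 g1 g2 g3 g4 g5
  simp only [tder]
  linear_combination (u 0 ^ 2 - u 0 * u 1 - u 0 * u 2) * g0 +
    (u 1 ^ 2 - u 0 * u 1 - u 1 * u 2) * g1 + (u 2 ^ 2 - u 0 * u 2 - u 1 * u 2) * g2 +
    u 0 * u 1 * g3 + u 0 * u 2 * g4 + u 1 * u 2 * g5

/-- The main step over the residue field. -/
theorem ndp_core {k K : Type} [Field k] [Fintype k] [Field K] [IsAlgClosed K] (ι : k →+* K)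
    (h2 : (2 : k) ≠ 0) (c : Fin 10 → k)
    (hline : ∀ v w : Fin 3 → K, v ≠ 0 → (∀ r : K, w ≠ r • v) →
      tev (fun i => ι (c i)) v = 0 → tder (fun i => ι (c i)) v w = 0 →
      tder (fun i => ι (c i)) w v = 0 → tev (fun i => ι (c i)) w = 0 → False)
    (hsing : ∃ v : Fin 3 → K, v ≠ 0 ∧ tev (fun i => ι (c i)) v = 0 ∧
      ∀ w, tder (fun i => ι (c i)) v w = 0) : ∃ v, Good c v := by
  classical
  obtain ⟨v', hv'0, hv'1, hv'2⟩ := hsing
  obtain ⟨i, hi⟩ : ∃ i, v' i ≠ 0 := Function.ne_iff.1 hv'0
  -- normalise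
  obtain ⟨v, hvi, hv1, hv2⟩ : ∃ v : Fin 3 → K, v i = 1 ∧ tev (fun i => ι (c i)) v = 0 ∧
      ∀ w, tder (fun i => ι (c i)) v w = 0 := by
    refine ⟨(v' i)⁻¹ • v', ?_, ?_, ?_⟩
    · rw [Pi.smul_apply, smul_eq_mul, inv_mul_cancel₀ hi]
    · rw [tev_smul_vec, hv'1, mul_zero]
    · intro w
      rw [tder_smul_left, hv'2, mul_zero]
  have hv0 : v ≠ 0 := by
    intro h
    rw [h] at hvi
    exact zero_ne_one hvi
  -- Frobenius
  let _ : Algebra k K := ι.toAlgebra
  let σ : K →+* K := (FiniteField.frobeniusAlgHom k K).toRingHom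
  have hσ : ∀ x, σ x = x ^ Fintype.card k := fun x => rfl
  have hσι : ∀ a, σ (ι a) = ι a := fun a => by
    rw [hσ, ← map_pow, FiniteField.pow_card]
  have hσc : (fun i => σ (ι (c i))) = fun i => ι (c i) := funext fun i => hσι _
  have hfix : ∀ j, v j ^ Fintype.card k = v j := by
    by_contra hne
    push Not at hne
    obtain ⟨j, hj⟩ := hne
    have e1 : tev (fun i => ι (c i)) (fun i => σ (v i)) = 0 := by
      have := map_tev σ (fun i => ι (c i)) v
      rw [hv1, map_zero, hσc] at this
      exact this.symm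
    have e2 : tder (fun i => ι (c i)) (fun i => σ (v i)) v = 0 := by
      obtain ⟨w, hw⟩ : ∃ w : Fin 3 → K, (fun i => σ (w i)) = v := by
        have hs : ∀ x : K, ∃ y, σ y = x := by
          intro x
          obtain ⟨y, hy⟩ := IsAlgClosed.exists_pow_nat_eq x (Fintype.card_pos (α := k))
          exact ⟨y, (hσ y).trans hy⟩
        choose y hy using hs
        exact ⟨fun i => y (v i), funext fun i => hy _⟩
      have h3 := map_tder σ (fun i => ι (c i)) v w
      rw [hv2 w, map_zero, hσc, hw] at h3
      exact h3.symm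
    refine hline v (fun i => σ (v i)) hv0 ?_ hv1 (hv2 _) e2 e1
    intro r hr
    have h4 := congrFun hr i
    have h5 := congrFun hr j
    rw [Pi.smul_apply, smul_eq_mul] at h4 h5
    rw [hσ, hvi, one_pow, mul_one] at h4
    rw [← h4, one_mul, hσ] at h5
    exact hj h5
  choose v₀ hv₀ using fun j => fixed_mem ι (v j) (hfix j)
  have hv₀' : (fun j => ι (v₀ j)) = v := funext hv₀
  have hinj := ι.injective
  have s1 : tev c v₀ = 0 := by
    apply hinj
    rw [map_tev, hv₀', hv1, map_zero]
  have s2 : ∀ w, tder c v₀ w = 0 := by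
    intro w
    apply hinj
    rw [map_tder, hv₀', hv2, map_zero]
  have s3 : v₀ i = 1 := by
    apply hinj
    rw [hv₀, hvi, map_one]
  -- the other two coordinates
  obtain ⟨j, l, hji, hli, hjl⟩ : ∃ j l : Fin 3, j ≠ i ∧ l ≠ i ∧ j ≠ l := by
    fin_cases i
    · exact ⟨1, 2, by decide, by decide, by decide⟩
    · exact ⟨0, 2, by decide, by decide, by decide⟩
    · exact ⟨0, 1, by decide, by decide, by decide⟩
  by_cases hq : ∀ u : Fin 3 → k, tder c u v₀ = 0
  · -- a cone
    exfalso
    have hq' := quad_zero ι c v₀ hq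
    rw [hv₀'] at hq'
    set ej : Fin 3 → K := Pi.single j 1 with hej
    set el : Fin 3 → K := Pi.single l 1 with hel
    have hroot : ∃ x y : K, (x ≠ 0 ∨ y ≠ 0) ∧ tev (fun i => ι (c i)) (x • ej + y • el) = 0 := by
      by_cases h0 : tev (fun i => ι (c i)) ej = 0
      · refine ⟨1, 0, Or.inl one_ne_zero, ?_⟩
        rw [zero_smul, add_zero, one_smul, h0]
      · have hdeg : (C (tev (fun i => ι (c i)) ej) * X ^ 3 +
            C (tder (fun i => ι (c i)) ej el) * X ^ 2 + C (tder (fun i => ι (c i)) el ej) * X +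
            C (tev (fun i => ι (c i)) el) : K[X]).degree = 3 := degree_cubic h0
        obtain ⟨x, hx⟩ := IsAlgClosed.exists_root _ (by rw [hdeg]; decide)
        refine ⟨x, 1, Or.inr one_ne_zero, ?_⟩
        rw [Pool.AV3.taylor]
        simp only [IsRoot.def, eval_add, eval_mul, eval_C, eval_pow, eval_X] at hx
        linear_combination hx
    obtain ⟨x, y, hxy, hroot⟩ := hroot
    refine hline v (x • ej + y • el) hv0 ?_ hv1 (hv2 _) (hq' _) hroot
    intro r hr
    have h4 := congrFun hr i
    have h5 := congrFun hr j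
    have h6 := congrFun hr l
    simp only [hej, hel, Pi.add_apply, Pi.smul_apply, smul_eq_mul, hvi, mul_one,
      Pi.single_eq_of_ne hji.symm, Pi.single_eq_of_ne hli.symm, mul_zero, add_zero,
      Pi.single_eq_of_ne hjl, Pi.single_eq_of_ne hjl.symm, Pi.single_eq_same, zero_add] at h4 h5 h6
    rw [← h4, zero_mul] at h5 h6
    rcases hxy with h | h
    · exact h h5
    · exact h h6
  · push Not at hq
    obtain ⟨u, hu⟩ := hq
    set t := tder c u v₀ with ht
    set s := -tev c u with hs
    set w := s • v₀ + t • u with hw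
    have hw1 : tev c w = 0 := by
      rw [hw, Pool.AV3.taylor, s1, s2, ← ht, hs]
      ring
    have hw2 : tder c w v₀ ≠ 0 := by
      rw [hw, taylor', s1, s2, ← ht]
      have : s ^ 2 * (3 * 0) + 2 * s * t * 0 + t ^ 2 * t = t ^ 3 := by ring
      rw [this]
      exact pow_ne_zero 3 hu
    refine ⟨w, hw1, ⟨v₀, hw2⟩, ?_⟩
    by_contra hne
    push Not at hne
    set L := tder c w v₀ with hL
    set ej : Fin 3 → k := Pi.single j 1 with hej
    set el : Fin 3 → k := Pi.single l 1 with hel
    set p : Fin 3 → k := ej + (-(tder c w ej) / L) • v₀ with hp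
    set q : Fin 3 → k := el + (-(tder c w el) / L) • v₀ with hq
    have hp1 : tder c w p = 0 := by
      rw [hp, tder_add_right, tder_smul_right, ← hL, div_mul_cancel₀ _ hw2]
      ring
    have hq1 : tder c w q = 0 := by
      rw [hq, tder_add_right, tder_smul_right, ← hL, div_mul_cancel₀ _ hw2]
      ring
    have hpq : ∀ a b : k, tev c (a • p + b • q) = 0 := by
      intro a b
      apply hne
      rw [tder_lin, hp1, hq1]
      ring
    have k1 := hpq 1 0
    have k2 := hpq 0 1
    have k3 := hpq 1 1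
    have k4 := hpq 1 (-1)
    rw [Pool.AV3.taylor] at k1 k2 k3 k4
    have m1 : tev c p = 0 := by linear_combination k1
    have m2 : tev c q = 0 := by linear_combination k2
    rw [m1, m2] at k3 k4
    have m3 : tder c q p = 0 := by
      have : 2 * tder c q p = 0 := by linear_combination k3 + k4
      exact (mul_eq_zero.1 this).resolve_left h2
    have m4 : tder c p q = 0 := by
      rw [m3] at k3
      linear_combination k3
    have hcoord : ∀ x : Fin 3 → k, ∀ m, ι (x m) = (fun n => ι (x n)) m := fun x m => rfl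
    refine hline (fun n => ι (p n)) (fun n => ι (q n)) ?_ ?_ ?_ ?_ ?_ ?_
    · intro h0
      have h4 := congrFun h0 i
      have h5 := congrFun h0 j
      simp only [Pi.zero_apply, map_eq_zero] at h4 h5
      simp only [hp, hej, Pi.add_apply, Pi.smul_apply, smul_eq_mul, s3, mul_one,
        Pi.single_eq_of_ne hji.symm, zero_add, Pi.single_eq_same] at h4 h5
      rw [h4, zero_mul, add_zero] at h5
      exact one_ne_zero h5
    · intro r hr
      have h4 := congrFun hr i
      have h6 := congrFun hr l
      simp only [Pi.smul_apply, smul_eq_mul] at h4 h6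
      simp only [hp, hq, hej, hel, Pi.add_apply, Pi.smul_apply, smul_eq_mul, s3, mul_one,
        Pi.single_eq_of_ne hji.symm, Pi.single_eq_of_ne hli.symm, zero_add,
        Pi.single_eq_of_ne hjl.symm, Pi.single_eq_same, map_add, map_one, map_mul] at h4 h6
      rw [h4] at h6
      have : (1 : K) = 0 := by linear_combination h6
      exact one_ne_zero this
    · rw [← map_tev, m1, map_zero]
    · rw [← map_tder, m4, map_zero]
    · rw [← map_tder, m3, map_zero]
    · rw [← map_tev, m2, map_zero]

/-- If the value and the derivative vanish modulo `P` then `P²` divides. -/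
theorem sq_dvd {F : Type} [Field F] [Finite F] {P D : F[X]} (hP : Irreducible P) (h1 : P ∣ D)
    (h2 : P ∣ derivative D) : P ^ 2 ∣ D := by
  obtain ⟨Q, rfl⟩ := h1
  have hsep : P.Separable := PerfectField.separable_of_irreducible hP
  rw [derivative_mul] at h2
  have h3 : P ∣ derivative P * Q := (dvd_add_left (dvd_mul_right P _)).1 h2
  have h4 : P ∣ Q := by
    have h5 : IsCoprime P (derivative P) := hsep
    exact h5.dvd_of_dvd_mul_left h3
  obtain ⟨Q', rfl⟩ := h4
  exact ⟨Q', by ring⟩

theorem ndp_thm (hDSG : DSGStmt) (hCLN : CLNStmt) : NDPStmt := by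
  intro F _ _ h2 P hm hP c hd hd2
  have hfact : Fact (Irreducible P) := ⟨hP⟩
  have hfin : Finite (AdjoinRoot P) := by
    have := AdjoinRoot.powerBasis hP.ne_zero
    have h1 : Module.Finite F (AdjoinRoot P) := this.finite
    exact Module.finite_of_finite F
  have := Fintype.ofFinite (AdjoinRoot P)
  let ι : AdjoinRoot P →+* AlgebraicClosure (AdjoinRoot P) := algebraMap _ _
  let ev : F[X] →+* AlgebraicClosure (AdjoinRoot P) := ι.comp (AdjoinRoot.mk P)
  have h2' : (2 : AdjoinRoot P) ≠ 0 := by
    have h3 : (2 : AdjoinRoot P) = AdjoinRoot.of P 2 := by rw [map_ofNat]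
    rw [h3, _root_.map_ne_zero]
    exact h2
  have h2K : (2 : AlgebraicClosure (AdjoinRoot P)) ≠ 0 := by
    have h3 : (2 : AlgebraicClosure (AdjoinRoot P)) = ι 2 := by rw [map_ofNat]
    rw [h3, _root_.map_ne_zero]
    exact h2'
  have hτ : (2 : F[X]) * hf F = 1 := by
    have h3 : (2 : F[X]) = C 2 := by rw [map_ofNat]
    rw [hf, h3, ← C_mul, mul_inv_cancel₀ h2, C_1]
  have hev : ev (hf F) = (2 : AlgebraicClosure (AdjoinRoot P))⁻¹ := by
    apply eq_inv_of_mul_eq_one_right
    rw [← map_ofNat ev 2, ← map_mul, hτ, map_one]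
  have hc : (fun i => ι (md P c i)) = fun i => ev (c i) := rfl
  refine ndp_core ι h2' (md P c) ?_ ?_
  · intro v w hv hvw h3 h4 h5 h6
    apply hd2
    have h7 := hCLN (AlgebraicClosure (AdjoinRoot P)) h2K (phd ev (hf F))
      (by rw [← map_ofNat (phd ev) 2, ← map_mul, hτ, map_one]) (fun i => phd ev (c i)) v w hv hvw
      h3 h4 h5 h6
    rw [dsc_Jc_map] at h7
    have h8 : ev (dsc (Jc (hf F) c)) = 0 := congrArg TrivSqZeroExt.fst h7
    have h9 : ev (derivative (dsc (Jc (hf F) c))) = 0 := congrArg TrivSqZeroExt.snd h7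
    refine sq_dvd hP hd ?_
    have h10 : ι (AdjoinRoot.mk P (derivative (dsc (Jc (hf F) c)))) = 0 := h9
    rw [map_eq_zero] at h10
    exact AdjoinRoot.mk_eq_zero.1 h10
  · apply hDSG _ h2K
    rw [hc, ← hev, dsc_Jc_map]
    show ι (AdjoinRoot.mk P (dsc (Jc (hf F) c))) = 0
    rw [AdjoinRoot.mk_eq_zero.2 hd, map_zero]

end Pool.Agent.H41.AV3C
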