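import Pool.Agent.H8.AV3.Stmts5
import Pool.Agent.H41.AV3B.RDG

/-!
# Row RDG of board av3c: good points modulo a prime lift to good points at the place
-/

set_option autoImplicit false

namespace Pool.Agent.H41.AV3C

open Polynomial Matrix Pool.AV3 Pool.AVS Pool.AVS.WUW Pool.Agent.H41.AV3B

/-- Converse of `good_red`: if the reduction is a good point and the residue map is onto. -/
theorem gdI_of_good {K : Type} [Field K] {I : Set K} {ϖ : K} {k : Type} [Field k] {ρ : K → k}
    (h : Plc I ϖ ρ) (hs : ∀ y : k, ∃ x ∈ I, ρ x = y) {c : Fin 10 → K} {v : Fin 3 → K}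
    (hc : ∀ i, c i ∈ I) (hv : ∀ i, v i ∈ I) (hg : Good (fun i => ρ (c i)) fun i => ρ (v i)) :
    GdI I ϖ c v := by
  obtain ⟨h1, ⟨w, hw⟩, w', hw1, hw2⟩ := hg
  obtain ⟨e1, e2⟩ := tev_red h hc hv
  have h5 : ∀ i, ∃ x ∈ I, ρ x = w i := fun i => hs _
  choose x hxI hx using h5
  have h6 : ∀ i, ∃ x ∈ I, ρ x = w' i := fun i => hs _
  choose x' hxI' hx' using h6
  have h7 : (fun i => ρ (x i)) = w := funext hx
  have h8 : (fun i => ρ (x' i)) = w' := funext hx'
  obtain ⟨f1, f2⟩ := tder_red h hc hv hxI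
  obtain ⟨g1, g2⟩ := tder_red h hc hv hxI'
  obtain ⟨k1, k2⟩ := tev_red h hc hxI'
  rw [h7] at f2
  rw [h8] at g2 k2
  refine ⟨hv, ?_, ?_, ⟨x, hxI, ?_⟩, x', hxI', ?_, ?_⟩
  · by_contra hne
    push Not at hne
    apply hw
    have h9 : (fun i => ρ (v i)) = 0 := by
      funext i
      exact (h.ker _ (hv i)).2 (hne i)
    rw [h9]
    simp only [tder, Pi.zero_apply]
    ring
  · exact (h.ker _ e1).1 (e2.trans h1)
  · intro h9
    exact hw (f2.symm.trans ((h.ker _ f1).2 h9))
  · exact (h.ker _ g1).1 (g2.trans hw1)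
  · intro h9
    exact hw2 (k2.symm.trans ((h.ker _ k1).2 h9))

theorem rdg_thm : RDGStmt := by
  constructor
  · intro F _ P hm hP c z hg
    have : Fact (Irreducible P) := ⟨hP⟩
    have hpl := plcP P
    have hpoly : ∀ p : F[X], algebraMap F[X] (RatFunc F) p ∈ IP P := by
      intro p h
      rw [RatFunc.denom_algebraMap] at h
      exact hP.not_isUnit (isUnit_of_dvd_one h)
    have hs : ∀ y : AdjoinRoot P, ∃ x ∈ IP P, rP P x = y := by
      intro y
      obtain ⟨p, hp⟩ := AdjoinRoot.mk_surjective y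
      exact ⟨algebraMap F[X] (RatFunc F) p, hpoly p, (rP_poly P p).trans hp⟩
    refine gdI_of_good hpl hs (fun i => hpoly (c i)) (fun i => hpoly (z i)) ?_
    have h2 : (fun i => rP P (mp c i)) = md P c := by
      funext i
      exact rP_poly P (c i)
    have h3 : (fun i => rP P (pv z i)) = fun i => AdjoinRoot.mk P (z i) := by
      funext i
      exact rP_poly P (z i)
    rw [h2, h3]
    exact hg
  · intro F _ n d c hc z hg
    have hpl := plcI (F := F)
    have hkey : ∀ i, cI n d c i ∈ Iinf F ∧ rI (cI n d c i) = md X (cinf n d c) i := by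
      intro i
      show algebraMap F[X] (RatFunc F) (c i) / (RatFunc.X : RatFunc F) ^ ee n d i ∈ Iinf F ∧
        rI (algebraMap F[X] (RatFunc F) (c i) / (RatFunc.X : RatFunc F) ^ ee n d i) =
          AdjoinRoot.mk X ((c i).reflect (ee n d i).toNat)
      by_cases h0 : c i = 0
      · rw [h0, map_zero, zero_div, reflect_zero, map_zero]
        exact ⟨hpl.zero_mem, hpl.map_zero⟩
      · have h1 : ((c i).natDegree : ℤ) ≤ ee n d i := hc i h0
        obtain ⟨m, hm⟩ := Int.eq_ofNat_of_zero_le (le_trans (Int.natCast_nonneg _) h1)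
        rw [hm] at h1 ⊢
        rw [zpow_natCast, Int.toNat_natCast]
        exact rI_div m (c i) (by exact_mod_cast h1)
    have hC : ∀ a : F, algebraMap F[X] (RatFunc F) (C a) ∈ Iinf F ∧
        rI (algebraMap F[X] (RatFunc F) (C a)) = AdjoinRoot.mk (X : F[X]) (C a) := by
      intro a
      have h1 := rI_div 0 (C a) (le_of_eq (natDegree_C a))
      rw [pow_zero, div_one, reflect_C, pow_zero, mul_one] at h1
      exact h1
    have hs : ∀ y : AdjoinRoot (X : F[X]), ∃ x ∈ Iinf F, rI x = y := by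
      intro y
      obtain ⟨p, hp⟩ := AdjoinRoot.mk_surjective y
      refine ⟨algebraMap F[X] (RatFunc F) (C (p.coeff 0)), (hC _).1, ?_⟩
      rw [(hC _).2, ← hp, mkX, mkX, coeff_C_zero]
    refine gdI_of_good hpl hs (fun i => (hkey i).1) (fun i => (hC (z i)).1) ?_
    have h2 : (fun i => rI (cI n d c i)) = md X (cinf n d c) := funext fun i => (hkey i).2
    have h3 : (fun i => rI (pv (fun i => C (z i)) i)) = fun i => AdjoinRoot.mk X (C (z i)) :=
      funext fun i => (hC (z i)).2
    rw [h2, h3]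
    exact hg

end Pool.Agent.H41.AV3C
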